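import Pool.Agent.H51.MFM.S
import Pool.Agent.H34.MFQ.POI

/-!
# Board mfm, row GRS: the algebra of polynomials is graded and stable under the derivatives
-/

set_option autoImplicit false

open Module MvPolynomial

namespace Pool.MFM.G6

open Pool.MFQ

/-- The homogeneous components of a product of elements of a subalgebra. -/
theorem hc_mul {κ : Type} (A : Subalgebra ℂ (MvPolynomial κ ℂ)) {F G : MvPolynomial κ ℂ}
    (hF : ∀ n, homogeneousComponent n F ∈ A) (hG : ∀ n, homogeneousComponent n G ∈ A) (n : ℕ) :
    homogeneousComponent n (F * G) ∈ A := by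
  classical
  have e : F * G = ∑ i ∈ Finset.range (F.totalDegree + 1), ∑ j ∈ Finset.range (G.totalDegree + 1),
      homogeneousComponent i F * homogeneousComponent j G := by
    rw [← Finset.sum_mul_sum, sum_homogeneousComponent, sum_homogeneousComponent]
  rw [e, map_sum]
  refine sum_mem fun i _ => ?_
  rw [map_sum]
  refine sum_mem fun j _ => ?_
  have h : (homogeneousComponent i F * homogeneousComponent j G).IsHomogeneous (i + j) :=
    (homogeneousComponent_isHomogeneous i F).mul (homogeneousComponent_isHomogeneous j G)
  rw [homogeneousComponent_of_mem ((mem_homogeneousSubmodule _ _).2 h)]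
  split_ifs
  · exact mul_mem (hF i) (hG j)
  · exact zero_mem _

end Pool.MFM.G6

namespace Pool.MFM

open Pool.MFQ

/-- **The algebra is graded and stable.** -/
theorem t_grs (hD : DSIStmt) : GRSStmt := by
  classical
  intro σ τ _ _ A a hA
  refine ⟨?_, ?_⟩
  · intro F hF
    induction hF using Algebra.adjoin_induction with
    | mem p hp =>
      intro n
      obtain ⟨f, k, hf, hk, hh, hp'⟩ := hp
      rw [homogeneousComponent_of_mem ((mem_homogeneousSubmodule _ _).2 hh)]
      split_ifs
      · exact Algebra.subset_adjoin ⟨f, k, hf, hk, hh, hp'⟩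
      · exact zero_mem _
    | algebraMap c =>
      intro n
      rw [algebraMap_eq, homogeneousComponent_of_mem
        ((mem_homogeneousSubmodule _ _).2 (isHomogeneous_C _ c))]
      split_ifs
      · exact Subalgebra.algebraMap_mem _ c
      · exact zero_mem _
    | add u v _ _ hu hv =>
      intro n
      rw [map_add]
      exact add_mem (hu n) (hv n)
    | mul u v _ _ hu hv => exact fun n => G6.hc_mul _ hu hv n
  · intro F hF i
    induction hF using Algebra.adjoin_induction with
    | mem p hp =>
      obtain ⟨f, k, hf, hk, hh, hp'⟩ := hp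
      obtain ⟨k, rfl⟩ : ∃ k', k = k' + 1 := ⟨k - 1, by omega⟩
      have hh' : (pderiv (Sum.inr i) p).IsHomogeneous k := by
        have := hh.pderiv (i := Sum.inr i)
        rwa [Nat.add_sub_cancel] at this
      have hη : (Pi.single (Sum.inr i) 1 : σ ⊕ τ → ℂ) ∈ TT σ τ := fun l => by
        rw [Pi.single_eq_of_ne (by simp)]
      obtain ⟨h1, h2⟩ := hD (σ ⊕ τ → ℂ) (σ ⊕ τ) A a (Pi.single (Sum.inr i) 1) f
        (fun j => hA j _ hη) hf
      have h3 : tayE a f (k + 1) = fun t => eval t p := funext hp'
      rcases Nat.eq_zero_or_pos k with hk0 | hk0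
      · subst hk0
        rw [← totalDegree_zero_iff_isHomogeneous, totalDegree_eq_zero_iff_eq_C] at hh'
        rw [hh']
        exact Subalgebra.algebraMap_mem _ _
      · refine Algebra.subset_adjoin ⟨_, k, h1, hk0, hh', fun t => ?_⟩
        rw [← h2 k t, h3, PoiN.fderiv_ev, Finset.sum_eq_single (Sum.inr i)]
        · rw [Pi.single_eq_same, mul_one]
        · intro j _ hj
          rw [Pi.single_eq_of_ne hj, mul_zero]
        · intro h
          exact absurd (Finset.mem_univ _) h
    | algebraMap c =>
      rw [algebraMap_eq, pderiv_C]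
      exact zero_mem _
    | add u v _ _ hu hv =>
      rw [map_add]
      exact add_mem hu hv
    | mul u v hu' hv' hu hv =>
      rw [pderiv_mul]
      exact add_mem (mul_mem hu hv') (mul_mem hu' hv)

end Pool.MFM
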