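import Pool.Agent.H51.MFM.S
import Pool.Agent.H34.MFQ.POI

/-!
# Board mfm, row PCM: the algebra of polynomials is Poisson commutative
-/

set_option autoImplicit false

open Module MvPolynomial

namespace Pool.MFM.C6

open Pool.MFQ

variable {𝔤 : Type} [LieRing 𝔤] [LieAlgebra ℂ 𝔤] {κ : Type} [Fintype κ] [DecidableEq κ]

/-- The bracket of polynomials. -/
noncomputable def B (b : Basis κ ℂ 𝔤) (t : κ → ℂ) (p q : MvPolynomial κ ℂ) : ℂ :=
  ∑ r, eval t (pderiv r p) * ∑ j, eval t (pderiv j q) * opA b r t j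

theorem pbE_eq (b : Basis κ ℂ 𝔤) (t : κ → ℂ) (p q : MvPolynomial κ ℂ) :
    pbE b (fun t => eval t p) (fun t => eval t q) t = B b t p q := by
  unfold pbE B
  refine Finset.sum_congr rfl fun r _ => ?_
  rw [PoiN.fderiv_ev, PoiN.fderiv_ev, Finset.sum_eq_single r]
  · rw [Pi.single_eq_same, mul_one]
  · intro j _ hj
    rw [Pi.single_eq_of_ne hj, mul_zero]
  · intro h
    exact absurd (Finset.mem_univ r) h

theorem B_C_left (b : Basis κ ℂ 𝔤) (t : κ → ℂ) (c : ℂ) (q : MvPolynomial κ ℂ) :
    B b t (algebraMap ℂ _ c) q = 0 := by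
  unfold B
  refine Finset.sum_eq_zero fun r _ => ?_
  rw [algebraMap_eq, pderiv_C, map_zero, zero_mul]

theorem B_C_right (b : Basis κ ℂ 𝔤) (t : κ → ℂ) (c : ℂ) (p : MvPolynomial κ ℂ) :
    B b t p (algebraMap ℂ _ c) = 0 := by
  unfold B
  refine Finset.sum_eq_zero fun r _ => ?_
  rw [Finset.sum_eq_zero fun j _ => by rw [algebraMap_eq, pderiv_C, map_zero, zero_mul], mul_zero]

theorem B_add_left (b : Basis κ ℂ 𝔤) (t : κ → ℂ) (p p' q : MvPolynomial κ ℂ) :
    B b t (p + p') q = B b t p q + B b t p' q := by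
  unfold B
  rw [← Finset.sum_add_distrib]
  refine Finset.sum_congr rfl fun r _ => ?_
  rw [map_add, map_add, add_mul]

theorem B_add_right (b : Basis κ ℂ 𝔤) (t : κ → ℂ) (p q q' : MvPolynomial κ ℂ) :
    B b t p (q + q') = B b t p q + B b t p q' := by
  unfold B
  rw [← Finset.sum_add_distrib]
  refine Finset.sum_congr rfl fun r _ => ?_
  rw [← mul_add, ← Finset.sum_add_distrib]
  congr 1
  refine Finset.sum_congr rfl fun j _ => ?_
  rw [map_add, map_add, add_mul]

theorem B_mul_left (b : Basis κ ℂ 𝔤) (t : κ → ℂ) (p p' q : MvPolynomial κ ℂ) :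
    B b t (p * p') q = eval t p * B b t p' q + eval t p' * B b t p q := by
  unfold B
  rw [Finset.mul_sum, Finset.mul_sum, ← Finset.sum_add_distrib]
  refine Finset.sum_congr rfl fun r _ => ?_
  rw [pderiv_mul, map_add, map_mul, map_mul]
  ring

theorem B_mul_right (b : Basis κ ℂ 𝔤) (t : κ → ℂ) (p q q' : MvPolynomial κ ℂ) :
    B b t p (q * q') = eval t q * B b t p q' + eval t q' * B b t p q := by
  unfold B
  rw [Finset.mul_sum, Finset.mul_sum, ← Finset.sum_add_distrib]
  refine Finset.sum_congr rfl fun r _ => ?_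
  have h : ∑ j, eval t (pderiv j (q * q')) * opA b r t j =
      eval t q * ∑ j, eval t (pderiv j q') * opA b r t j +
        eval t q' * ∑ j, eval t (pderiv j q) * opA b r t j := by
    rw [Finset.mul_sum, Finset.mul_sum, ← Finset.sum_add_distrib]
    refine Finset.sum_congr rfl fun j _ => ?_
    rw [pderiv_mul, map_add, map_mul, map_mul]
    ring
  rw [h]
  ring

end Pool.MFM.C6

namespace Pool.MFM

open Pool.MFQ C6

/-- **The algebra is Poisson commutative.** -/
theorem t_pcm (hC : COMStmt) : PCMStmt := by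
  intro 𝔤 _ _ κ _ _ b a p q hp hq t
  rw [pbE_eq]
  have h1 : ∀ p ∈ TPs (opA b) a, ∀ q ∈ TPs (opA b) a, B b t p q = 0 := by
    rintro p ⟨f, i, hf, hi, _, hp⟩ q ⟨g, j, hg, hj, _, hq⟩
    rw [← pbE_eq]
    have h2 : (fun t => eval t p) = tayE a f i := funext fun t => (hp t).symm
    have h3 : (fun t => eval t q) = tayE a g j := funext fun t => (hq t).symm
    rw [h2, h3]
    exact hC 𝔤 κ b a f g i j hf hg hi hj t
  have h4 : ∀ p ∈ TPs (opA b) a, ∀ q ∈ Algebra.adjoin ℂ (TPs (opA b) a), B b t p q = 0 := by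
    intro p hp q hq
    induction hq using Algebra.adjoin_induction with
    | mem q hq => exact h1 p hp q hq
    | algebraMap c => exact B_C_right b t c p
    | add u v _ _ hu hv => rw [B_add_right, hu, hv, add_zero]
    | mul u v _ _ hu hv => rw [B_mul_right, hu, hv, mul_zero, mul_zero, add_zero]
  induction hp using Algebra.adjoin_induction with
  | mem p hp => exact h4 p hp q hq
  | algebraMap c => exact B_C_left b t c q
  | add u v _ _ hu hv => rw [B_add_left, hu, hv, add_zero]
  | mul u v _ _ hu hv => rw [B_mul_left, hu, hv, mul_zero, mul_zero, add_zero]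

end Pool.MFM
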