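import Pool.Agent.H51.MFM.S
import Pool.Agent.H50.MFQ.SYA
import Pool.Agent.H3.MFQ.Ord

/-!
# Board mfm, row SYE: principal symbols exist
-/

set_option autoImplicit false

open Module MvPolynomial

namespace Pool.MFM.E6

open Pool.MFQ Pool.MFQ.Ord

variable {𝔤 : Type} [LieRing 𝔤] [LieAlgebra ℂ 𝔤]

/-- The symbol of a power. -/
theorem hs_pow (x : 𝔤) (m : ℕ) :
    HasSym m (UniversalEnvelopingAlgebra.ι ℂ x ^ m) (fun ξ => ξ x ^ m) := by
  induction m with
  | zero =>
    have h := Sy.hs_one (𝔤 := 𝔤)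
    rw [pow_zero]
    convert h using 1
    funext ξ
    rw [pow_zero, Pi.one_apply]
  | succ m ih =>
    rw [pow_succ]
    convert Sy.hs_mul ih (Sy.hs_iota x) using 1
    funext ξ
    rw [pow_succ, Pi.mul_apply]

/-- The symbol of an ordered monomial. -/
theorem hs_mo {n : ℕ} (b : Fin n → 𝔤) (α : Fin n → ℕ) :
    HasSym (∑ i, α i) (mo (fun i => UniversalEnvelopingAlgebra.ι ℂ (b i)) α)
      (fun ξ => ∏ i, ξ (b i) ^ α i) := by
  induction n with
  | zero =>
    have h := Sy.hs_one (𝔤 := 𝔤)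
    have h1 : mo (fun i => UniversalEnvelopingAlgebra.ι ℂ (b i)) α = 1 := by
      unfold mo
      simp
    rw [h1]
    convert h using 1
    · simp
    · funext ξ
      simp
  | succ n ih =>
    rw [mo_succ, Fin.sum_univ_succ]
    convert Sy.hs_mul (hs_pow (b 0) (α 0)) (ih (fun i => b i.succ) (fun i => α i.succ)) using 1
    funext ξ
    rw [Fin.prod_univ_succ]
    rfl

end Pool.MFM.E6

namespace Pool.MFM

open Pool.MFQ Pool.MFQ.Ord

/-- **Principal symbols exist.** -/
theorem t_sye : SYEStmt := by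
  classical
  intro 𝔤 _ _ _ κ _ b u hu
  obtain ⟨n, ⟨e⟩⟩ : ∃ n, Nonempty (κ ≃ Fin n) := ⟨_, ⟨Fintype.equivFin κ⟩⟩
  obtain ⟨b', hb'⟩ : ∃ b' : Basis (Fin n) ℂ 𝔤, b' = b.reindex e := ⟨_, rfl⟩
  have hbe : ∀ i, b' i = b (e.symm i) := fun i => by rw [hb', Basis.reindex_apply]
  have htop := mo_top b'
  have hmem : u ∈ Submodule.span ℂ
      (Set.range (mo fun i => UniversalEnvelopingAlgebra.ι ℂ (b' i))) := by
    rw [htop]
    exact Submodule.mem_top
  rw [Finsupp.mem_span_range_iff_exists_finsupp] at hmem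
  obtain ⟨c, hc⟩ := hmem
  have hc0 : c ≠ 0 := by
    rintro rfl
    rw [Finsupp.sum_zero_index] at hc
    exact hu hc.symm
  have hne : c.support.Nonempty := Finsupp.support_nonempty_iff.2 hc0
  obtain ⟨α₀, hα₀, hmax⟩ := Finset.exists_max_image c.support (fun α => ∑ i, α i) hne
  obtain ⟨k, hk⟩ : ∃ k, k = ∑ i, α₀ i := ⟨_, rfl⟩
  obtain ⟨s, hs⟩ : ∃ s, s = c.support.filter fun α => ∑ i, α i = k := ⟨_, rfl⟩
  -- the exponent in the variables `κ`
  obtain ⟨φ, hφ⟩ : ∃ φ : (Fin n → ℕ) → (κ →₀ ℕ), ∀ α j, φ α j = α (e j) :=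
    ⟨fun α => Finsupp.equivFunOnFinite.symm fun j => α (e j), fun α j => rfl⟩
  have hinj : Function.Injective φ := fun α β h => by
    funext i
    have h1 := hφ α (e.symm i)
    have h2 := hφ β (e.symm i)
    rw [Equiv.apply_symm_apply] at h1 h2
    rw [← h1, ← h2, h]
  refine ⟨k, ∑ α ∈ s, monomial (φ α) (c α), ?_, ?_, ?_⟩
  · intro h0
    have h1 := congrArg (coeff (φ α₀)) h0
    rw [coeff_sum, coeff_zero] at h1
    have h2 : ∀ α ∈ s, coeff (φ α₀) (monomial (φ α) (c α)) = if α = α₀ then c α else 0 := by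
      intro α _
      rw [coeff_monomial]
      by_cases h : α = α₀
      · rw [if_pos h, if_pos (by rw [h])]
      · rw [if_neg h, if_neg fun h' => h (hinj h')]
    rw [Finset.sum_congr rfl h2, Finset.sum_ite_eq', if_pos] at h1
    · exact Finsupp.mem_support_iff.1 hα₀ h1
    · rw [hs, Finset.mem_filter]
      exact ⟨hα₀, hk.symm⟩
  · refine IsHomogeneous.sum _ _ _ fun α hα => ?_
    rw [hs, Finset.mem_filter] at hα
    refine isHomogeneous_monomial _ ?_
    rw [Finsupp.degree_eq_sum, ← hα.2, ← Equiv.sum_comp e]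
    exact Finset.sum_congr rfl fun j _ => hφ α j
  · have hlow : ∑ α ∈ c.support \ s, c α • mo (fun i => UniversalEnvelopingAlgebra.ι ℂ (b' i)) α ∈
        Ulow 𝔤 k := by
      refine Submodule.sum_mem _ fun α hα => Submodule.smul_mem _ _ ?_
      rw [Finset.mem_sdiff, hs, Finset.mem_filter] at hα
      have h1 : ∑ i, α i < k := by
        refine lt_of_le_of_ne ?_ fun h => hα.2 ⟨hα.1, h⟩
        rw [hk]
        exact hmax α hα.1
      exact Sy.hs_mem (E6.hs_mo (fun i => b' i) α) h1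
    have hsum : u = ∑ α ∈ s, c α • mo (fun i => UniversalEnvelopingAlgebra.ι ℂ (b' i)) α +
        ∑ α ∈ c.support \ s, c α • mo (fun i => UniversalEnvelopingAlgebra.ι ℂ (b' i)) α := by
      rw [add_comm, Finset.sum_sdiff (by rw [hs]; exact Finset.filter_subset _ _)]
      exact hc.symm
    rw [hsum]
    refine Sy.hs_add_low ?_ hlow le_rfl
    have h1 : evP b (∑ α ∈ s, monomial (φ α) (c α)) =
        ∑ α ∈ s, c α • fun ξ : Dual ℂ 𝔤 => ∏ i, ξ (b' i) ^ α i := by
      rw [map_sum]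
      refine Finset.sum_congr rfl fun α _ => ?_
      unfold evP
      rw [aeval_monomial, Algebra.smul_def]
      congr 1
      funext ξ
      rw [Finsupp.prod_fintype _ _ fun i => pow_zero _, Finset.prod_apply,
        ← Equiv.prod_comp e fun i => ξ (b' i) ^ α i]
      refine Finset.prod_congr rfl fun j _ => ?_
      rw [Pi.pow_apply, hφ, hbe, Equiv.symm_apply_apply]
    rw [h1]
    refine Sy.hs_sum s _ _ fun α hα => Sy.hs_smul _ ?_
    rw [hs, Finset.mem_filter] at hα
    have h2 := E6.hs_mo (fun i => b' i) α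
    rw [hα.2] at h2
    exact h2

end Pool.MFM
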