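import Pool.Agent.H51.MFM.S

/-!
# Board mfm, row UPW: the powers of the lift are symmetrised
-/

set_option autoImplicit false

open Module MvPolynomial

namespace Pool.MFM.U6

open Pool.MFQ

section Coef

variable {σ τ : Type}

/-- The coefficients of `dcM`. -/
theorem coeff_dcM {K ι : Type} [CommRing K] (d : K → K) (h0 : d 0 = 0) (F : MvPolynomial ι K)
    (α : ι →₀ ℕ) : coeff α (dcM d F) = d (coeff α F) := by
  classical
  unfold dcM
  rw [coeff_sum]
  simp only [coeff_monomial]
  rw [Finset.sum_ite_eq']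
  by_cases h : α ∈ F.support
  · rw [if_pos h]
  · rw [if_neg h, notMem_support_iff.1 h, h0]

theorem dcM_add {K ι : Type} [CommRing K] (d : K → K) (h0 : d 0 = 0)
    (hd : ∀ a b, d (a + b) = d a + d b) (F G : MvPolynomial ι K) :
    dcM d (F + G) = dcM d F + dcM d G := by
  ext α
  rw [coeff_add, coeff_dcM d h0, coeff_dcM d h0, coeff_dcM d h0, coeff_add, hd]

theorem dcM_sum {K ι I : Type} [CommRing K] (d : K → K) (h0 : d 0 = 0)
    (hd : ∀ a b, d (a + b) = d a + d b) (s : Finset I) (F : I → MvPolynomial ι K) :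
    dcM d (∑ i ∈ s, F i) = ∑ i ∈ s, dcM d (F i) := by
  classical
  induction s using Finset.induction_on with
  | empty =>
    rw [Finset.sum_empty, Finset.sum_empty]
    ext α
    rw [coeff_dcM d h0, coeff_zero, h0]
  | insert a s ha ih => rw [Finset.sum_insert ha, Finset.sum_insert ha, dcM_add d h0 hd, ih]

theorem dvG_zero [Fintype τ] (D : τ → Derivation ℂ (MvPolynomial σ ℂ) (MvPolynomial σ ℂ))
    (P : Lm σ τ) : dvG D P 0 = 0 := by
  unfold dvG
  simp

theorem dvG_add [Fintype τ] (D : τ → Derivation ℂ (MvPolynomial σ ℂ) (MvPolynomial σ ℂ))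
    (P : Lm σ τ) (a b : MvPolynomial σ ℂ) : dvG D P (a + b) = dvG D P a + dvG D P b := by
  unfold dvG
  rw [← Finset.sum_add_distrib]
  exact Finset.sum_congr rfl fun i _ => by rw [map_add, mul_add]

theorem dvG_mul [Fintype τ] (D : τ → Derivation ℂ (MvPolynomial σ ℂ) (MvPolynomial σ ℂ))
    (P : Lm σ τ) (a b : MvPolynomial σ ℂ) :
    dvG D P (a * b) = dvG D P a * b + a * dvG D P b := by
  unfold dvG
  rw [Finset.sum_mul, Finset.mul_sum, ← Finset.sum_add_distrib]
  refine Finset.sum_congr rfl fun i _ => ?_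
  rw [Derivation.leibniz, smul_eq_mul, smul_eq_mul]
  ring

/-- `δ` on the coefficients of a multiple. -/
theorem dcM_smul [Fintype τ] (D : τ → Derivation ℂ (MvPolynomial σ ℂ) (MvPolynomial σ ℂ))
    (P : Lm σ τ) (c : MvPolynomial σ ℂ) (W : MvPolynomial τ (MvPolynomial σ ℂ)) :
    dcM (dvG D P) (c • W) = dvG D P c • W + c • dcM (dvG D P) W := by
  ext1 α
  rw [coeff_add, coeff_dcM _ (dvG_zero D P), coeff_smul, coeff_smul, coeff_smul,
    coeff_dcM _ (dvG_zero D P), smul_eq_mul, smul_eq_mul, smul_eq_mul, dvG_mul]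

/-- The products of elements killed by `δ`. -/
theorem dvG_prod [Fintype τ] (D : τ → Derivation ℂ (MvPolynomial σ ℂ) (MvPolynomial σ ℂ))
    (P : Lm σ τ) {I : Type} (s : Finset I) (f : I → MvPolynomial σ ℂ)
    (h : ∀ i, dvG D P (f i) = 0) : dvG D P (∏ i ∈ s, f i) = 0 := by
  classical
  induction s using Finset.induction_on with
  | empty =>
    rw [Finset.prod_empty]
    unfold dvG
    exact Finset.sum_eq_zero fun i _ => by rw [Derivation.map_one_eq_zero, mul_zero]
  | insert a s ha ih => rw [Finset.prod_insert ha, dvG_mul, h, ih]; ring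

end Coef

section Pow

variable {σ τ U : Type} [Fintype τ] [Ring U] [Algebra ℂ U]

/-- The content of a word. -/
noncomputable def ctt {k : ℕ} (b : Fin k → τ) : τ →₀ ℕ := ∑ r, Finsupp.single (b r) 1

theorem ctt_degree {k : ℕ} (b : Fin k → τ) : (ctt b).degree = k := by
  unfold ctt
  rw [map_sum]
  simp [Finsupp.degree_single]

theorem mem_wds (α : τ →₀ ℕ) (b : Fin α.degree → τ) : b ∈ wds α ↔ ctt b = α := by
  classical
  unfold wds ctt
  simp

/-- The value of a product along a word depends on the content only. -/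
theorem prod_word {R : Type} [CommMonoid R] (f : τ → R) {k : ℕ} (b : Fin k → τ) :
    ∏ r, f (b r) = (ctt b).prod fun i m => f i ^ m := by
  classical
  unfold ctt
  rw [← Finsupp.prod_finset_sum_index]
  · refine Finset.prod_congr rfl fun r _ => ?_
    rw [Finsupp.prod_single_index (h := fun i m => f i ^ m) (pow_zero _), pow_one]
  · intro i
    exact pow_zero _
  · intro i a b
    exact pow_add _ _ _

/-- The sum over the words with given content. -/
theorem sum_wds (O : Ore σ τ U) (φ : τ → MvPolynomial σ ℂ) (α : τ →₀ ℕ) :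
    ∑ b ∈ wds α, O.e (∏ r, φ (b r)) * sym O.x α =
      ∑ b ∈ wds α, O.e (∏ r, φ (b r)) * (List.ofFn fun r => O.x (b r)).prod := by
  have h1 : ∀ b ∈ wds α, ∏ r, φ (b r) = α.prod fun i m => φ i ^ m := fun b hb => by
    rw [prod_word, (mem_wds α b).1 hb]
  have h2 : ∑ b ∈ wds α, O.e (∏ r, φ (b r)) * sym O.x α =
      ((wds α).card : ℂ) • (O.e (α.prod fun i m => φ i ^ m) * sym O.x α) := by
    rw [Finset.sum_congr rfl fun b hb => by rw [h1 b hb], Finset.sum_const, Nat.cast_smul_eq_nsmul]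
  have h3 : ∑ b ∈ wds α, O.e (∏ r, φ (b r)) * (List.ofFn fun r => O.x (b r)).prod =
      O.e (α.prod fun i m => φ i ^ m) * ∑ b ∈ wds α, (List.ofFn fun r => O.x (b r)).prod := by
    rw [Finset.mul_sum]
    exact Finset.sum_congr rfl fun b hb => by rw [h1 b hb]
  rw [h2, h3]
  unfold sym
  rcases Nat.eq_zero_or_pos (wds α).card with h0 | h0
  · rw [Finset.card_eq_zero.1 h0]
    simp
  · rw [mul_smul_comm, smul_smul, mul_inv_cancel₀, one_smul]
    exact_mod_cast h0.ne'

/-- `Ns` as a sum over any set which contains the support. -/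
theorem Ns_eq (O : Ore σ τ U) (W : MvPolynomial τ (MvPolynomial σ ℂ)) (s : Finset (τ →₀ ℕ))
    (h : W.support ⊆ s) : Ns O W = ∑ α ∈ s, O.e (coeff α W) * sym O.x α := by
  unfold Ns
  refine Finset.sum_subset h fun α _ hα => ?_
  rw [notMem_support_iff.1 hα, map_zero, zero_mul]

theorem Ns_add (O : Ore σ τ U) (W W' : MvPolynomial τ (MvPolynomial σ ℂ)) :
    Ns O (W + W') = Ns O W + Ns O W' := by
  classical
  rw [Ns_eq O W (W.support ∪ W'.support) Finset.subset_union_left,
    Ns_eq O W' (W.support ∪ W'.support) Finset.subset_union_right,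
    Ns_eq O (W + W') (W.support ∪ W'.support) support_add, ← Finset.sum_add_distrib]
  exact Finset.sum_congr rfl fun α _ => by rw [coeff_add, map_add, add_mul]

theorem Ns_zero (O : Ore σ τ U) : Ns O 0 = 0 := by
  unfold Ns
  rw [support_zero, Finset.sum_empty]

theorem Ns_sum (O : Ore σ τ U) {I : Type} (s : Finset I)
    (W : I → MvPolynomial τ (MvPolynomial σ ℂ)) :
    Ns O (∑ i ∈ s, W i) = ∑ i ∈ s, Ns O (W i) := by
  classical
  induction s using Finset.induction_on with
  | empty => rw [Finset.sum_empty, Finset.sum_empty, Ns_zero]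
  | insert a s ha ih => rw [Finset.sum_insert ha, Finset.sum_insert ha, Ns_add, ih]

theorem Ns_smul (O : Ore σ τ U) (c : MvPolynomial σ ℂ)
    (W : MvPolynomial τ (MvPolynomial σ ℂ)) : Ns O (c • W) = O.e c * Ns O W := by
  rw [Ns_eq O (c • W) W.support support_smul, Ns, Finset.mul_sum]
  exact Finset.sum_congr rfl fun α _ => by rw [coeff_smul, smul_eq_mul, map_mul, mul_assoc]

theorem Ns_monomial (O : Ore σ τ U) (α : τ →₀ ℕ) (c : MvPolynomial σ ℂ) :
    Ns O (monomial α c) = O.e c * sym O.x α := by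
  classical
  rw [Ns_eq O (monomial α c) {α} support_monomial_subset, Finset.sum_singleton, coeff_monomial,
    if_pos rfl]

/-- The linear form. -/
noncomputable def Lf (P : Lm σ τ) : MvPolynomial τ (MvPolynomial σ ℂ) := ∑ i, C (P.2 i) * X i

/-- The linear part of the lift. -/
noncomputable def Xf (O : Ore σ τ U) (P : Lm σ τ) : U := ∑ i, O.e (P.2 i) * O.x i

theorem Xf_e (O : Ore σ τ U) (P : Lm σ τ) (c : MvPolynomial σ ℂ) :
    Xf O P * O.e c = O.e c * Xf O P + O.e (dvG O.D P c) := by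
  unfold Xf dvG
  rw [Finset.sum_mul, Finset.mul_sum, map_sum, ← Finset.sum_add_distrib]
  refine Finset.sum_congr rfl fun i _ => ?_
  have h := O.hx i c
  rw [sub_eq_iff_eq_add] at h
  rw [mul_assoc, h, mul_add, map_mul, ← mul_assoc, ← mul_assoc, ← map_mul, ← map_mul,
    add_comm, mul_comm (P.2 i) c, map_mul O.e c (P.2 i)]

/-- The powers of the linear part. -/
theorem Xf_pow (O : Ore σ τ U) (P : Lm σ τ) (hP : ∀ i, dvG O.D P (P.2 i) = 0) (k : ℕ) :
    Xf O P ^ k = ∑ b : Fin k → τ,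
      O.e (∏ r, P.2 (b r)) * (List.ofFn fun r => O.x (b r)).prod := by
  classical
  induction k with
  | zero => simp
  | succ k ih =>
    rw [pow_succ', ih, Finset.mul_sum]
    rw [← Equiv.sum_comp (Fin.consEquiv fun _ => τ), Fintype.sum_prod_type, Finset.sum_comm]
    refine Finset.sum_congr rfl fun b _ => ?_
    have h0 : dvG O.D P (∏ r, P.2 (b r)) = 0 := dvG_prod O.D P _ _ fun r => hP _
    rw [← mul_assoc, Xf_e, h0, map_zero, add_zero, Xf, Finset.mul_sum, Finset.sum_mul]
    refine Finset.sum_congr rfl fun i _ => ?_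
    simp only [Fin.consEquiv_apply, Fin.prod_univ_succ, Fin.cons_zero, Fin.cons_succ,
      List.ofFn_succ, List.prod_cons, map_mul]
    rw [← mul_assoc, ← map_mul, ← map_mul, mul_comm (∏ r, P.2 (b r))]
    simp only [mul_assoc]

/-- The powers of the linear form. -/
theorem Lf_pow (P : Lm σ τ) (k : ℕ) :
    Lf P ^ k = ∑ b : Fin k → τ, monomial (ctt b) (∏ r, P.2 (b r)) := by
  classical
  have h1 : Lf P ^ k = ∏ _r : Fin k, Lf P := by
    rw [Finset.prod_const, Finset.card_univ, Fintype.card_fin]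
  rw [h1]
  unfold Lf
  rw [Finset.prod_univ_sum, Fintype.piFinset_univ]
  refine Finset.sum_congr rfl fun b _ => ?_
  unfold ctt
  rw [monomial_sum_index]
  · rw [Finset.prod_mul_distrib, map_prod]
    rfl

/-- The symmetrisation of the powers of the linear form. -/
theorem Ns_pow (O : Ore σ τ U) (P : Lm σ τ) (hP : ∀ i, dvG O.D P (P.2 i) = 0) (k : ℕ) :
    Ns O (Lf P ^ k) = Xf O P ^ k := by
  classical
  rw [Lf_pow, Ns_sum, Xf_pow O P hP]
  have hm : ∀ b ∈ (Finset.univ : Finset (Fin k → τ)),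
      ctt b ∈ (Finset.univ : Finset (Fin k → τ)).image ctt := fun b hb =>
    Finset.mem_image_of_mem _ hb
  rw [← Finset.sum_fiberwise_of_maps_to hm, ← Finset.sum_fiberwise_of_maps_to hm]
  refine Finset.sum_congr rfl fun α hα => ?_
  obtain ⟨b₀, _, hb₀⟩ := Finset.mem_image.1 hα
  have hk : α.degree = k := by rw [← hb₀, ctt_degree]
  subst hk
  have h1 : (Finset.univ.filter fun b : Fin α.degree → τ => ctt b = α) = wds α := by
    ext b
    rw [Finset.mem_filter, mem_wds]
    simp
  rw [h1, ← sum_wds]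
  refine Finset.sum_congr rfl fun b hb => ?_
  rw [Ns_monomial, (mem_wds α b).1 hb]

theorem toP_eq (P : Lm σ τ) : toP P = C P.1 + Lf P := rfl

theorem li_eq (O : Ore σ τ U) (P : Lm σ τ) : li O P = O.e P.1 + Xf O P := rfl

/-- The space of the polynomials in the linear form. -/
noncomputable def Sp (P : Lm σ τ) : Submodule (MvPolynomial σ ℂ)
    (MvPolynomial τ (MvPolynomial σ ℂ)) := Submodule.span _ (Set.range fun k : ℕ => Lf P ^ k)

theorem dcM_one (D : τ → Derivation ℂ (MvPolynomial σ ℂ) (MvPolynomial σ ℂ)) (P : Lm σ τ) :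
    dcM (dvG D P) (1 : MvPolynomial τ (MvPolynomial σ ℂ)) = 0 := by
  classical
  ext1 α
  rw [coeff_dcM _ (dvG_zero D P), coeff_one, coeff_zero]
  have h1 : dvG D P 1 = 0 := by
    unfold dvG
    exact Finset.sum_eq_zero fun i _ => by rw [Derivation.map_one_eq_zero, mul_zero]
  split_ifs
  · exact h1
  · exact dvG_zero D P

theorem dcM_pow (D : τ → Derivation ℂ (MvPolynomial σ ℂ) (MvPolynomial σ ℂ)) (P : Lm σ τ)
    (hP : ∀ i, dvG D P (P.2 i) = 0) (k : ℕ) : dcM (dvG D P) (Lf P ^ k) = 0 := by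
  classical
  rw [Lf_pow, dcM_sum _ (dvG_zero D P) (dvG_add D P)]
  refine Finset.sum_eq_zero fun b _ => ?_
  ext1 α
  rw [coeff_dcM _ (dvG_zero D P), coeff_monomial, coeff_zero]
  split_ifs
  · exact dvG_prod D P _ _ fun r => hP _
  · exact dvG_zero D P

theorem Sp_toP (P : Lm σ τ) {W : MvPolynomial τ (MvPolynomial σ ℂ)} (hW : W ∈ Sp P) :
    toP P * W ∈ Sp P := by
  rw [toP_eq, add_mul]
  refine add_mem ?_ ?_
  · rw [← smul_eq_C_mul]
    exact Submodule.smul_mem _ _ hW
  · refine Submodule.span_induction (p := fun W _ => Lf P * W ∈ Sp P) ?_ ?_ ?_ ?_ hW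
    · rintro _ ⟨k, rfl⟩
      exact Submodule.subset_span ⟨k + 1, pow_succ' _ _⟩
    · rw [mul_zero]
      exact zero_mem _
    · intro u v _ _ h1 h2
      rw [mul_add]
      exact add_mem h1 h2
    · intro c u _ h1
      rw [mul_smul_comm]
      exact Submodule.smul_mem _ _ h1

theorem Sp_dcM (D : τ → Derivation ℂ (MvPolynomial σ ℂ) (MvPolynomial σ ℂ)) (P : Lm σ τ)
    (hP : ∀ i, dvG D P (P.2 i) = 0) {W : MvPolynomial τ (MvPolynomial σ ℂ)} (hW : W ∈ Sp P) :
    dcM (dvG D P) W ∈ Sp P := by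
  refine Submodule.span_induction (p := fun W _ => dcM (dvG D P) W ∈ Sp P) ?_ ?_ ?_ ?_ hW
  · rintro _ ⟨k, rfl⟩
    show dcM (dvG D P) (Lf P ^ k) ∈ Sp P
    rw [dcM_pow D P hP]
    exact zero_mem _
  · have h := dcM_sum (ι := τ) (dvG D P) (dvG_zero D P) (dvG_add D P) (∅ : Finset ℕ) fun _ => 0
    rw [Finset.sum_empty, Finset.sum_empty] at h
    rw [h]
    exact zero_mem _
  · intro u v _ _ h1 h2
    rw [dcM_add _ (dvG_zero D P) (dvG_add D P)]
    exact add_mem h1 h2
  · intro c u hu h1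
    rw [dcM_smul]
    exact add_mem (Submodule.smul_mem _ _ hu) (Submodule.smul_mem _ _ h1)

/-- **Multiplication by the lift.** -/
theorem li_Ns (O : Ore σ τ U) (P : Lm σ τ) (hP : ∀ i, dvG O.D P (P.2 i) = 0)
    {W : MvPolynomial τ (MvPolynomial σ ℂ)} (hW : W ∈ Sp P) :
    li O P * Ns O W = Ns O (toP P * W) + Ns O (dcM (dvG O.D P) W) := by
  refine Submodule.span_induction (p := fun W _ => li O P * Ns O W =
    Ns O (toP P * W) + Ns O (dcM (dvG O.D P) W)) ?_ ?_ ?_ ?_ hW
  · rintro _ ⟨k, rfl⟩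
    show li O P * Ns O (Lf P ^ k) = Ns O (toP P * Lf P ^ k) + Ns O (dcM (dvG O.D P) (Lf P ^ k))
    rw [dcM_pow O.D P hP, Ns_zero, add_zero, toP_eq, add_mul, ← smul_eq_C_mul, ← pow_succ',
      Ns_add, Ns_smul, Ns_pow O P hP, Ns_pow O P hP, li_eq, add_mul, ← pow_succ']
  · have h := dcM_sum (ι := τ) (dvG O.D P) (dvG_zero O.D P) (dvG_add O.D P)
      (∅ : Finset ℕ) fun _ => 0
    rw [Finset.sum_empty, Finset.sum_empty] at h
    rw [h, Ns_zero, mul_zero, mul_zero, Ns_zero, add_zero]
  · intro u v _ _ h1 h2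
    rw [dcM_add _ (dvG_zero O.D P) (dvG_add O.D P), mul_add, Ns_add, Ns_add, Ns_add, mul_add,
      h1, h2]
    abel
  · intro c u _ h1
    have h3 : li O P * O.e c = O.e c * li O P + O.e (dvG O.D P c) := by
      rw [li_eq, add_mul, Xf_e, ← map_mul, mul_comm P.1 c, map_mul, mul_add]
      abel
    rw [Ns_smul, ← mul_assoc, h3, add_mul, mul_assoc, h1, dcM_smul, Ns_add, Ns_smul, Ns_smul,
      mul_smul_comm, Ns_smul, mul_add]
    abel

theorem wL_mem (D : τ → Derivation ℂ (MvPolynomial σ ℂ) (MvPolynomial σ ℂ)) (P : Lm σ τ)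
    (hP : ∀ i, dvG D P (P.2 i) = 0) (n : ℕ) : ∀ i, wL D P n i ∈ Sp P := by
  induction n with
  | zero =>
    intro i
    cases i with
    | zero =>
      rw [wL]
      exact Submodule.subset_span ⟨0, pow_zero _⟩
    | succ i =>
      rw [wL]
      exact zero_mem _
  | succ n ih =>
    intro i
    cases i with
    | zero =>
      rw [wL]
      exact Sp_toP P (ih 0)
    | succ i =>
      rw [wL]
      exact add_mem (Sp_toP P (ih _)) (Sp_dcM D P hP (ih _))

theorem wL_zero (D : τ → Derivation ℂ (MvPolynomial σ ℂ) (MvPolynomial σ ℂ)) (P : Lm σ τ)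
    (n : ℕ) : ∀ i, n < i → wL D P n i = 0 := by
  induction n with
  | zero =>
    intro i hi
    cases i with
    | zero => exact absurd hi (lt_irrefl _)
    | succ i => rw [wL]
  | succ n ih =>
    intro i hi
    cases i with
    | zero => exact absurd hi (Nat.not_lt_zero _)
    | succ i =>
      have h := dcM_sum (ι := τ) (dvG D P) (dvG_zero D P) (dvG_add D P) (∅ : Finset ℕ) fun _ => 0
      rw [Finset.sum_empty, Finset.sum_empty] at h
      rw [wL, ih _ (by omega), ih _ (by omega), mul_zero, h, add_zero]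

end Pow

/-- **The powers of the lift are symmetrised.** -/
theorem _root_.Pool.MFM.t_upw : UPWStmt := by
  intro σ τ U _ _ _ O P hP n
  induction n with
  | zero =>
    intro M _
    rw [pow_zero, Finset.sum_range_succ']
    have h1 : ∀ i ∈ Finset.range M, wL O.D P 0 (i + 1) = 0 := fun i _ => by rw [wL]
    rw [Finset.sum_eq_zero h1, zero_add, wL]
    have h2 := Ns_pow O P hP 0
    rw [pow_zero, pow_zero] at h2
    exact h2.symm
  | succ n ih =>
    intro M hM
    have hW : ∑ i ∈ Finset.range (M + 1), wL O.D P n i ∈ Sp P :=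
      sum_mem fun i _ => wL_mem O.D P hP n i
    rw [pow_succ', ih M (by omega), li_Ns O P hP hW, ← Ns_add]
    congr 1
    rw [dcM_sum _ (dvG_zero O.D P) (dvG_add O.D P), Finset.mul_sum]
    rw [Finset.sum_range_succ (fun i => dcM (dvG O.D P) (wL O.D P n i)) M, wL_zero O.D P n M hM]
    have h := dcM_sum (ι := τ) (dvG O.D P) (dvG_zero O.D P) (dvG_add O.D P)
      (∅ : Finset ℕ) fun _ => 0
    rw [Finset.sum_empty, Finset.sum_empty] at h
    rw [h, add_zero, Finset.sum_range_succ' (fun i => toP P * wL O.D P n i) M,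
      Finset.sum_range_succ' (fun i => wL O.D P (n + 1) i) M]
    have h2 : ∀ i, wL O.D P (n + 1) (i + 1) = toP P * wL O.D P n (i + 1) +
        dcM (dvG O.D P) (wL O.D P n i) := fun i => by rw [wL]
    have h3 : wL O.D P (n + 1) 0 = toP P * wL O.D P n 0 := by rw [wL]
    simp only [h2, h3, Finset.sum_add_distrib]
    abel

end Pool.MFM.U6
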